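import Pool.Agent.Work.MP_1ce445_co_56.Never

/-!
The bound `((1 - 1/k)(n + 1))^k` for the product of the total domination numbers over
`k`-factorizations of `K_n` is never attained. The definitions are in
`Pool/Agent/Work/MP_1ce445_co_56/Defs.lean`.
-/

namespace Pool.Agent.Results.MP_1ce445_co.BoundNeverAttained

open Pool.Agent.Work.MP_1ce445_co_56

/-- For all `n ≥ 7` and `3 ≤ k ≤ n - 2` the maximum `P n k` is strictly smaller than the bound
obtained from the sum bound by the inequality between geometric and arithmetic means. -/
theorem result (n k : ℕ) (hn : 7 ≤ n) (hk : 3 ≤ k) (hkn : k ≤ n - 2) :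
    (P n k : ℝ) < ((1 - 1 / k) * (n + 1)) ^ k :=
  never_attained hn hk hkn

end Pool.Agent.Results.MP_1ce445_co.BoundNeverAttained
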