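import Pool.Agent.Work.MP_1ce445_topR.UniEnd
import Pool.Agent.Work.MP_1ce445_topR.AsyO
import Pool.Agent.Work.MP_1ce445_topR.OddVal
import Pool.Agent.Work.MP_1ce445_oddR.All
import Pool.Agent.Work.MP_1ce445_oddR.Uni

/-!
The maximal product `P n k` of the total domination numbers over `k`-factorizations of `K_n`: its
asymptotic value, uniformly for all `k` with `3 ≤ k ≤ n - 2`.
The definitions of total domination number, factorization and `P n k` are in
`Pool/Agent/Work/MP_1ce445_co_56/Defs.lean`, the explicit function `F` is in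
`Pool/Agent/Work/MP_1ce445_fin/Defs.lean`, the constants `Lam r`, `LamO r` (for `n` even and odd, `r = n - k`) and
`LamA n r` (`Lam r` for `n` even, `LamO r` for `n` odd) are in `Pool/Agent/Work/MP_1ce445_topR/Defs.lean`.
-/

namespace Pool.Agent.Results.MP_1ce445_co.ExactConstant

open Pool.Agent.Work.MP_1ce445_co_56 Pool.Agent.Work.MP_1ce445_fin
  Pool.Agent.Work.MP_1ce445_topR Pool.Agent.Work.MP_1ce445_oddR

/-- Let `N = 2 ⌊n/2⌋`. For every `ε > 0` there is `n0` such that for all `n ≥ n0` and all `k` with `3 ≤ k ≤ n - 2`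
the quotient of `P n k` and `F (k/n) e^(1 - LamA n (n-k)) N^k` differs from `1` by at most `ε`. The values of the
constants for small `r`, and their asymptotic behaviour. -/
theorem result :
    (∀ ε : ℝ, 0 < ε → ∃ n0 : ℕ, ∀ n k : ℕ, n0 ≤ n → 3 ≤ k → k + 2 ≤ n →
      |(P n k : ℝ) / (F ((k : ℝ) / n) * Real.exp (1 - LamA n (n - k)) *
        ((2 * (n / 2) : ℕ) : ℝ) ^ k) - 1| ≤ ε) ∧
    Lam 2 = 1 / 3 ∧ Lam 3 = 1 / 2 ∧ LamO 2 = 0 ∧ LamO 3 = 0 ∧ LamO 4 = 0 ∧
    Filter.Tendsto (fun r : ℕ => (1 - Lam r) / (Real.log r / r)) Filter.atTop (nhds 1) ∧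
    Filter.Tendsto (fun r : ℕ => (1 - LamO r) / (Real.log r / r)) Filter.atTop (nhds 1) :=
  ⟨uniform_all final h_TND, Lam_two, Lam_three_eq, LamO_two h_TND, LamO_three h_TND, LamO_four h_TND,
    Lam_asymp, LamO_asymp h_TND⟩

end Pool.Agent.Results.MP_1ce445_co.ExactConstant
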