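import Pool.Agent.Work.MP_1ce445_ex.End
import Pool.Agent.Work.MP_1ce445_n3.End
import Pool.Agent.Work.MP_1ce445_n32.End
import Pool.Agent.Work.MP_1ce445_n3odd.End

/-!
The exact value of the maximal product `P n k` of the total domination numbers over
`k`-factorizations of `K_n` at the upper end `k = n - r` of the range of `k`: for `r = 2`, `r = 3`
and, for odd `n`, `r = 4`. The definitions of total domination number, factorization and `P n k`
are in `Pool/Agent/Work/MP_1ce445_co_56/Defs.lean`.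
-/

namespace Pool.Agent.Results.MP_1ce445_co.ExtremeCase

open Pool.Agent.Work.MP_1ce445_co_56

/-- The least integer which is at least `(r - 1) n / (2 (r + 1))`. -/
def u (n r : ℕ) : ℕ := ((r - 1) * n + (2 * r + 1)) / (2 * (r + 1))

/-- The value. -/
def E (n r : ℕ) : ℕ :=
  if Odd n then
    if r = 4 then (n - 1) ^ (n - 5) * (n - 3) else (n - 1) ^ (n - r)
  else
    if r = 2 ∧ n % 6 = 2 then n ^ (n - 1 - u n r) * (n - 2) ^ (u n r - 2) * (n - 3)
    else n ^ (n - r - u n r) * (n - 2) ^ u n r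

/-- The pairs `n`, `r` of the theorem. -/
def Adm (n r : ℕ) : Prop :=
  (Odd n ∧ (r = 2 ∧ 7 ≤ n ∨ r = 3 ∧ 9 ≤ n ∨ r = 4 ∧ 13 ≤ n)) ∨
  (Even n ∧ (r = 2 ∧ 48 ≤ n ∨ r = 3 ∧ 12 ≤ n ∧ n ≠ 14))

/-- The exact value of `P n (n - r)` for `r = 2`, `r = 3` and, for odd `n`, `r = 4`. -/
theorem result (n r : ℕ) (h : Adm n r) : P n (n - r) = E n r := by
  rcases h with ⟨ho, ⟨rfl, h7⟩ | ⟨rfl, h9⟩ | ⟨rfl, h13⟩⟩ | ⟨he, ⟨rfl, h48⟩ | ⟨rfl, h12, h14⟩⟩
  · rw [E, if_pos ho, if_neg (by norm_num)]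
    exact (Pool.Agent.Work.MP_1ce445_ex.all_values n).1 h7 ho
  · rw [E, if_pos ho, if_neg (by norm_num)]
    exact Pool.Agent.Work.MP_1ce445_n3odd.h_odd3 h9 ho
  · rw [E, if_pos ho, if_pos rfl]
    exact Pool.Agent.Work.MP_1ce445_n3odd.h_odd4 h13 ho
  · have hno : ¬ Odd n := Nat.not_odd_iff_even.2 he
    have hu : u n 2 = (n + 5) / 6 := by
      unfold u
      congr 1
      omega
    obtain ⟨m, rfl⟩ := he
    rw [E, if_neg hno, hu]
    by_cases h2 : (m + m) % 6 = 2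
    · rw [if_pos ⟨rfl, h2⟩, (Pool.Agent.Work.MP_1ce445_ex.all_values (m + m)).2.2 h48 h2]
      have e1 : m + m - 1 - (m + m + 5) / 6 = m + m - 2 - (m + m + 2) / 6 := by omega
      have e2 : (m + m + 5) / 6 - 2 = (m + m + 2) / 6 - 1 := by omega
      rw [e1, e2]
    · rw [if_neg (fun h => h2 h.2),
        (Pool.Agent.Work.MP_1ce445_ex.all_values (m + m)).2.1 h48 (by omega)]
      have e1 : (m + m + 5) / 6 = (m + m + 2) / 6 := by omega
      rw [e1]
  · have hno : ¬ Odd n := Nat.not_odd_iff_even.2 he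
    have hu : u n 3 = (2 * n + 7) / 8 := by
      unfold u
      congr 1
    obtain ⟨m, rfl⟩ := he
    rw [E, if_neg hno, hu, if_neg (by omega)]
    have h4 : (m + m) % 4 = 0 ∨ (m + m) % 4 = 2 := by omega
    rcases h4 with h4 | h4
    · rw [Pool.Agent.Work.MP_1ce445_n3.hEN3 (m + m) h4 h12]
      have e1 : (2 * (m + m) + 7) / 8 = (m + m) / 4 := by omega
      rw [e1]
    · rw [Pool.Agent.Work.MP_1ce445_n32.hEN2 (m + m) h4 (by omega)]
      have e1 : (2 * (m + m) + 7) / 8 = (m + m) / 4 + 1 := by omega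
      have e2 : m + m - 3 - ((m + m) / 4 + 1) = m + m - 4 - (m + m) / 4 := by omega
      rw [e1, e2]

end Pool.Agent.Results.MP_1ce445_co.ExtremeCase
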